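import Pool.Agent.FBK.Glob

set_option autoImplicit false

/-!
Two-colourings of the edges of a map on a closed oriented surface that has a polyhedral
immersion in three-space.
-/

namespace Pool.Agent.Results.MP_fb372b_co.EdgeColouring

open Pool.Agent.FBK

/-- If a map has a polyhedral immersion with strictly convex faces, its edges can be coloured
with two colours so that the edges at every vertex of valence three have one colour and the
vertices that meet both colours are numerous. -/
theorem result {D : Type} [Fintype D] [Nonempty D] (s a : Equiv.Perm D)
    (ha : ∀ d, a (a d) = d) (R : Immersion s a) :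
    ∃ c : D → Bool, (∀ d, c (a d) = c d) ∧
      (∀ d, len s (toCyc s d) = 3 → c (s d) = c d) ∧
      2 - euler s a
          + max (min 2 (Nat.card {v : Cyc s // v ∈ mixed s c ∧ Even (len s v)} : ℤ))
            (min 1 (Nat.card {v : Cyc s // v ∈ mixed s c} : ℤ))
        ≤ ∑ᶠ v ∈ mixed s c, (((len s v / 2 : ℕ) : ℤ) - 1) :=
  ⟨col R, col_rev ha R, col_three ha R, main_bound ha R⟩

end Pool.Agent.Results.MP_fb372b_co.EdgeColouring
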